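import Pool.Agent.W295.PR.Stm

/-!
# PR-FIN2: recurrence from minimality
-/

set_option autoImplicit false

open Topology

namespace Pool.Agent.W554.PR.FIN2

open Pool.Agent.W295.PR

variable {G : Type} [Group G] [TopologicalSpace G] [IsTopologicalGroup G]

theorem sg_cont (N : Nil G) (D : ℕ) (e : ℤ) : Continuous (sg N (H := N.Γ) D e) := by
  refine continuous_pi fun q => ?_
  exact (continuous_apply (tau D e q)).const_smul (N.a ^ ev D e q)

theorem sm_cont (N : Nil G) (D : ℕ) (g : G) :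
    Continuous (fun (y : RR D → G ⧸ N.Γ) => fun q => g • y q) := by
  refine continuous_pi fun q => ?_
  exact (continuous_apply q).const_smul g

theorem const_mem (h3 : S_EV) (N : Nil G) (D : ℕ) {u : G} (hu : u ∈ N.G0) :
    (fun _ : RR D => u) ∈ PP N D := by
  refine Subgroup.subset_closure ⟨0, 1, u, 1, N.G0.one_mem, hu, N.G0.one_mem, ?_⟩
  funext q
  have := (h3 D 0 0 q q).2.2.2.2.2.2.2
  simp [gpp, this]

theorem gpp_mem (N : Nil G) (D : ℕ) (e : ℤ) : gpp N D e 1 1 N.g0⁻¹ ∈ PP N D :=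
  Subgroup.subset_closure ⟨e, 1, 1, N.g0⁻¹, N.G0.one_mem, N.G0.one_mem, N.G0.inv_mem N.g0_mem, rfl⟩

theorem sg_orb (h2 : S_PPn) (N : Nil G) (D : ℕ) (e : ℤ) {f : RR D → G} (hf : f ∈ PP N D) :
    ∃ g ∈ PP N D, sg N D e (act f (w0 N.Γ D)) = act g (w0 N.Γ D) := by
  refine ⟨cj N D e f * gpp N D e 1 1 N.g0⁻¹,
    (PP N D).mul_mem ((h2 G N D).1 e f hf) (gpp_mem N D e), ?_⟩
  funext q
  unfold sg act w0
  rw [MulAction.Quotient.smul_coe, MulAction.Quotient.smul_coe, MulAction.Quotient.smul_coe]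
  rw [QuotientGroup.eq]
  have h := N.Γ.inv_mem (N.Γ.zpow_mem N.gam_mem (ev D e q))
  convert h using 1
  simp only [smul_eq_mul, Pi.mul_apply, cj, gpp]
  group

theorem sm_orb (h2 : S_PPn) (h3 : S_EV) (N : Nil G) (D : ℕ) {f : RR D → G} (hf : f ∈ PP N D) :
    ∃ g ∈ PP N D, (fun q => N.a • act f (w0 N.Γ D) q) = act g (w0 N.Γ D) := by
  refine ⟨(fun q => N.a * f q * N.a⁻¹) * (fun _ => N.g0),
    (PP N D).mul_mem ((h2 G N D).2.1 f hf) (const_mem h3 N D N.g0_mem), ?_⟩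
  funext q
  unfold act w0
  rw [MulAction.Quotient.smul_coe, MulAction.Quotient.smul_coe, MulAction.Quotient.smul_coe]
  rw [QuotientGroup.eq]
  have h := N.Γ.inv_mem N.gam_mem
  convert h using 1
  simp only [smul_eq_mul, Pi.mul_apply]
  group

theorem sm_orb' (h2 : S_PPn) (h3 : S_EV) (N : Nil G) (D : ℕ) {f : RR D → G} (hf : f ∈ PP N D) :
    ∃ g ∈ PP N D, (fun q => N.a⁻¹ • act f (w0 N.Γ D) q) = act g (w0 N.Γ D) := by
  have hn : N.a⁻¹ * N.g0⁻¹ * N.a ∈ N.G0 := by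
    have := N.normal.conj_mem _ (N.G0.inv_mem N.g0_mem) N.a⁻¹
    rwa [inv_inv] at this
  refine ⟨(fun q => N.a⁻¹ * f q * N.a) * (fun _ => N.a⁻¹ * N.g0⁻¹ * N.a),
    (PP N D).mul_mem ((h2 G N D).2.2.1 f hf) (const_mem h3 N D hn), ?_⟩
  funext q
  unfold act w0
  rw [MulAction.Quotient.smul_coe, MulAction.Quotient.smul_coe, MulAction.Quotient.smul_coe]
  rw [QuotientGroup.eq]
  have h := N.gam_mem
  convert h using 1
  simp only [smul_eq_mul, Pi.mul_apply]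
  group

theorem Om_inv (N : Nil G) (D : ℕ) (φ : (RR D → G ⧸ N.Γ) → (RR D → G ⧸ N.Γ)) (hc : Continuous φ)
    (h : ∀ f ∈ PP N D, ∃ g ∈ PP N D, φ (act f (w0 N.Γ D)) = act g (w0 N.Γ D)) :
    ∀ y ∈ Om N N.Γ D, φ y ∈ Om N N.Γ D := by
  intro y hy
  refine map_mem_closure hc hy ?_
  rintro z ⟨f, hf, rfl⟩
  exact h f hf

theorem sg_sg (h3 : S_EV) (N : Nil G) (D : ℕ) (e f : ℤ) (y : RR D → G ⧸ N.Γ) :
    sg N D e (sg N D f y) = sg N D (e + f) y := by
  funext q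
  unfold sg
  rw [smul_smul, ← zpow_add]
  have h1 := (h3 D e f q q).1
  have h4 := (h3 D f e q q).2.1
  rw [h1, h4, add_comm f e]
  congr 2
  ring

theorem sg_sm (N : Nil G) (D : ℕ) (e m : ℤ) (y : RR D → G ⧸ N.Γ) :
    sg N D e (fun q => N.a ^ m • y q) = fun q => N.a ^ m • sg N D e y q := by
  funext q
  unfold sg
  rw [smul_smul, smul_smul, ← zpow_add, ← zpow_add, add_comm]

/-- the orbit set -/
def BB (N : Nil G) (D k j M : ℕ) : Set (RR D → G ⧸ N.Γ) :=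
  {y | ∃ (m : ℤ) (n : ℕ), M ≤ n ∧
    y = fun q => N.a ^ m • sg N D ((k : ℤ) * (n : ℤ) + (j : ℤ)) (w0 N.Γ D) q}

theorem main (h1 : S_FIN1) (h2 : S_PPn) (h3 : S_EV) : S_FIN2 := by
  intro hM G _ _ _ N D k j hk F U hU hUn
  have hcomp : CompactSpace (G ⧸ N.Γ) := N.compact
  have osg : ∀ e : ℤ, ∀ y ∈ Om N N.Γ D, sg N D e y ∈ Om N N.Γ D := fun e =>
    Om_inv N D _ (sg_cont N D e) fun f hf => sg_orb h2 N D e hf
  have oa : ∀ y ∈ Om N N.Γ D, (fun q => N.a • y q) ∈ Om N N.Γ D :=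
    Om_inv N D _ (sm_cont N D N.a) fun f hf => sm_orb h2 h3 N D hf
  have oa' : ∀ y ∈ Om N N.Γ D, (fun q => N.a⁻¹ • y q) ∈ Om N N.Γ D :=
    Om_inv N D _ (sm_cont N D N.a⁻¹) fun f hf => sm_orb' h2 h3 N D hf
  have oz : ∀ (m : ℤ), ∀ y ∈ Om N N.Γ D, (fun q => N.a ^ m • y q) ∈ Om N N.Γ D := by
    intro m
    induction m using Int.induction_on with
    | zero => intro y hy; simpa using hy
    | succ i ih =>
      intro y hy
      have := oa _ (ih y hy)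
      convert this using 1
      funext q
      rw [smul_smul, add_comm, zpow_add, zpow_one]
    | pred i ih =>
      intro y hy
      have := oa' _ (ih y hy)
      convert this using 1
      funext q
      rw [smul_smul, sub_eq_neg_add, zpow_add, zpow_neg_one]
  have ow : w0 N.Γ D ∈ Om N N.Γ D := by
    refine subset_closure ⟨1, (PP N D).one_mem, ?_⟩
    funext q
    simp [act]
  set A : ℕ → Set (RR D → G ⧸ N.Γ) := fun M => closure (BB N D k j M) with hA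
  have hanti : ∀ M, A (M + 1) ⊆ A M := by
    intro M
    refine closure_mono ?_
    rintro y ⟨m, n, hn, rfl⟩
    exact ⟨m, n, by omega, rfl⟩
  have hAOm : ∀ M, A M ⊆ Om N N.Γ D := by
    intro M
    refine closure_minimal ?_ isClosed_closure
    rintro y ⟨m, n, hn, rfl⟩
    exact oz m _ (osg _ _ ow)
  have hAne : ∀ M, (A M).Nonempty := fun M => ⟨_, subset_closure ⟨0, M, le_rfl, rfl⟩⟩
  have aA : ∀ (M : ℕ) (t : ℤ), ∀ y ∈ A M, (fun q => N.a ^ t • y q) ∈ A M := by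
    intro M t y hy
    refine map_mem_closure (sm_cont N D (N.a ^ t)) hy ?_
    rintro z ⟨m, n, hn, rfl⟩
    refine ⟨t + m, n, hn, ?_⟩
    funext q
    simp only [smul_smul, ← zpow_add]
  have sA : ∀ (M : ℕ), ∀ y ∈ A M, sg N D (k : ℤ) y ∈ A M := by
    intro M y hy
    refine map_mem_closure (sg_cont N D (k : ℤ)) hy ?_
    rintro z ⟨m, n, hn, rfl⟩
    refine ⟨m, n + 1, by omega, ?_⟩
    rw [sg_sm, sg_sg h3]
    have e : (k : ℤ) + ((k : ℤ) * (n : ℤ) + (j : ℤ)) = (k : ℤ) * ((n + 1 : ℕ) : ℤ) + (j : ℤ) := by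
      push_cast; ring
    rw [e]
  have sA' : ∀ (M : ℕ), ∀ y ∈ A (M + 1), sg N D (-(k : ℤ)) y ∈ A M := by
    intro M y hy
    refine map_mem_closure (sg_cont N D (-(k : ℤ))) hy ?_
    rintro z ⟨m, n, hn, rfl⟩
    obtain ⟨n', rfl⟩ : ∃ n', n = n' + 1 := ⟨n - 1, by omega⟩
    refine ⟨m, n', by omega, ?_⟩
    rw [sg_sm, sg_sg h3]
    have e : -(k : ℤ) + ((k : ℤ) * ((n' + 1 : ℕ) : ℤ) + (j : ℤ)) = (k : ℤ) * (n' : ℤ) + (j : ℤ) := by
      push_cast; ring
    rw [e]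
  have hLne : (⋂ M, A M).Nonempty := by
    refine IsCompact.nonempty_iInter_of_directed_nonempty_isCompact_isClosed A ?_ hAne
      (fun M => isClosed_closure.isCompact) (fun M => isClosed_closure)
    exact (antitone_nat_of_succ_le hanti).directed_ge
  have hL := h1 G N D (hM G N D) k hk (⋂ M, A M)
    ((Set.iInter_subset A 0).trans (hAOm 0)) (isClosed_iInter fun M => isClosed_closure) hLne
    (fun y hy => Set.mem_iInter.2 fun M => by
      have := aA M 1 y (Set.mem_iInter.1 hy M)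
      simpa only [zpow_one] using this)
    (fun y hy => Set.mem_iInter.2 fun M => by
      have := aA M (-1) y (Set.mem_iInter.1 hy M)
      simpa only [zpow_neg_one] using this)
    (fun y hy => Set.mem_iInter.2 fun M => sA M y (Set.mem_iInter.1 hy M))
    (fun y hy => Set.mem_iInter.2 fun M => sA' M y (Set.mem_iInter.1 hy (M + 1)))
  obtain ⟨x, hx⟩ := hUn
  obtain ⟨g, rfl⟩ := QuotientGroup.mk_surjective x
  obtain ⟨u, hu, γ, hγ, rfl⟩ := N.trans g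
  have hxu : ((u * γ : G) : G ⧸ N.Γ) = (u : G ⧸ N.Γ) := by
    rw [QuotientGroup.eq]
    have : (u * γ)⁻¹ * u = γ⁻¹ := by group
    rw [this]
    exact N.Γ.inv_mem hγ
  rw [hxu] at hx
  have hy : (fun _ : RR D => (u : G ⧸ N.Γ)) ∈ Om N N.Γ D := by
    refine subset_closure ⟨fun _ => u, const_mem h3 N D hu, ?_⟩
    funext q
    unfold act w0
    rw [MulAction.Quotient.smul_coe, smul_eq_mul, mul_one]
  rw [← hL] at hy
  have hy1 := Set.mem_iInter.1 hy 1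
  have hVo : IsOpen {y : RR D → G ⧸ N.Γ | y 0 ∈ U ∧ ∀ q ∈ F, y q ∈ U} := by
    have e : {y : RR D → G ⧸ N.Γ | y 0 ∈ U ∧ ∀ q ∈ F, y q ∈ U} =
        (fun y : RR D → G ⧸ N.Γ => y 0) ⁻¹' U ∩
          ⋂ q ∈ F, (fun y : RR D → G ⧸ N.Γ => y q) ⁻¹' U := by
      ext y
      simp
    rw [e]
    have hc : ∀ q : RR D, Continuous (fun y : RR D → G ⧸ N.Γ => y q) := fun q =>
      continuous_apply q
    exact (hU.preimage (hc 0)).inter (isOpen_biInter_finset fun q _ => hU.preimage (hc q))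
  obtain ⟨y, hyV, m, n, hn, rfl⟩ := mem_closure_iff.1 hy1 _ hVo ⟨hx, fun q _ => hx⟩
  obtain ⟨hV0, hVF⟩ := hyV
  have e0 : ev D ((k : ℤ) * (n : ℤ) + (j : ℤ)) 0 = 0 := by simp [ev]
  refine ⟨n, hn, N.a ^ m • ((1 : G) : G ⧸ N.Γ), ?_, ?_⟩
  · simpa [sg, w0, e0] using hV0
  · intro q hq
    have h5 := hVF q hq
    have e6 : N.a ^ m • sg N D ((k : ℤ) * (n : ℤ) + (j : ℤ)) (w0 N.Γ D) q =
        N.a ^ (ev D ((k : ℤ) * (n : ℤ) + (j : ℤ)) q) • N.a ^ m • ((1 : G) : G ⧸ N.Γ) := by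
      unfold sg w0
      rw [smul_smul, smul_smul, ← zpow_add, ← zpow_add, add_comm]
    rw [← e6]
    exact h5

end Pool.Agent.W554.PR.FIN2
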